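import Pool.Agent.Q85.ND.Main2

/-!
# The nonwandering set of the N-body problem has density zero in the energy surface

The part of the energy surface `H = E < 0` of the reduced problem of `N = n + 1` bodies in which all positions have
norm at most `R` has Liouville measure at least `c R ^ (3 n - 3)`, and the Liouville measure of the nonwandering
points in it is at most `C R ^ (3 n - 9 / 2)`.
-/

set_option autoImplicit false

open MeasureTheory

namespace Pool.Agent.Results.MP_70f7a7_an.DensityZero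

/-- The space `R³`. -/
abbrev R3 : Type := EuclideanSpace ℝ (Fin 3)

/-- Phase space: pairs (positions, momenta) of `N` bodies. -/
abbrev Phase (N : ℕ) : Type := (Fin N → R3) × (Fin N → R3)

/-- Kinetic energy of the momenta `p`. -/
noncomputable def kinetic {N : ℕ} (m : Fin N → ℝ) (p : Fin N → R3) : ℝ :=
  ∑ i, ‖p i‖ ^ 2 / (2 * m i)

/-- The Newtonian potential `U(q) = ∑_{i<j} m_i m_j / |q_i - q_j|` (the energy is kinetic energy minus `U`). -/
noncomputable def potential {N : ℕ} (m : Fin N → ℝ) (q : Fin N → R3) : ℝ :=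
  ∑ i, ∑ j, m i * m j / ‖q i - q j‖ / 2

/-- The energy surface `H = E` of the reduced `N`-body problem (centre of mass `0`, total momentum `0`, no collisions). -/
def surface {N : ℕ} (m : Fin N → ℝ) (E : ℝ) : Set (Phase N) :=
  {x | (∀ i j, i ≠ j → x.1 i ≠ x.1 j) ∧ ∑ i, m i • x.1 i = 0 ∧ ∑ i, x.2 i = 0 ∧
    kinetic m x.2 - potential m x.1 = E}

/-- `φ` is the complete flow on the energy surface obtained from the `N`-body flow by a smooth positive change of time
`ψ`. -/
structure IsReparametrizedFlow {N : ℕ} (m : Fin N → ℝ) (E : ℝ) (ψ : Phase N → ℝ)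
    (φ : ℝ → Phase N → Phase N) : Prop where
  /-- `ψ` is smooth outside collisions -/
  smooth : ContDiffOn ℝ ((⊤ : ℕ∞) : WithTop ℕ∞) ψ {x | ∀ i j, i ≠ j → x.1 i ≠ x.1 j}
  /-- `ψ` is positive outside collisions -/
  pos : ∀ x : Phase N, (∀ i j, i ≠ j → x.1 i ≠ x.1 j) → 0 < ψ x
  /-- orbits exist for all times and solve the reparametrized equations of motion -/
  flow : ∀ x ∈ surface m E, φ 0 x = x ∧ ∀ t : ℝ, φ t x ∈ surface m E ∧
    HasDerivAt (fun s : ℝ => φ s x)
      (ψ (φ t x) • ((fun i => (m i)⁻¹ • (φ t x).2 i),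
        (fun i => ∑ j, (m i * m j / ‖(φ t x).1 j - (φ t x).1 i‖ ^ 3) •
          ((φ t x).1 j - (φ t x).1 i)))) t

/-- `x` is a nonwandering point of the flow `φ` on the energy surface `S`. -/
def IsNonwandering {N : ℕ} (S : Set (Phase N)) (φ : ℝ → Phase N → Phase N) (x : Phase N) : Prop :=
  ∀ V : Set (Phase N), IsOpen V → x ∈ V → ∀ T : ℝ, ∃ t : ℝ, T < t ∧ ∃ y ∈ V ∩ S, φ t y ∈ V

/-- The positions `(Q_1, ..., Q_n, Q_{n+1})` of `n + 1` bodies, the last one such that the centre of mass is `0`. -/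
noncomputable def positions {n : ℕ} (m : Fin (n + 1) → ℝ) (Q : Fin n → R3) : Fin (n + 1) → R3 :=
  Fin.snoc Q (-(m (Fin.last n))⁻¹ • ∑ i, m i.castSucc • Q i)

/-- The momenta `(P_1, ..., P_n, -P_1 - ... - P_n)` of `n + 1` bodies. -/
noncomputable def momenta {n : ℕ} (P : Fin n → R3) : Fin (n + 1) → R3 := Fin.snoc P (-∑ i, P i)

/-- The kinetic energy `K = U(q) + E` of the states of energy `E` with the positions `positions m Q`. -/
noncomputable def energyK {n : ℕ} (m : Fin (n + 1) → ℝ) (E : ℝ) (Q : Fin n → R3) : ℝ :=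
  potential m (positions m Q) + E

/-- The state with the positions `positions m Q` and with the momenta `momenta P` scaled so that the energy is `E`,
that is, the kinetic energy is `K`. -/
noncomputable def state {n : ℕ} (m : Fin (n + 1) → ℝ) (E : ℝ) (z : (Fin n → R3) × (Fin n → R3)) : Phase (n + 1) :=
  (positions m z.1, Real.sqrt (energyK m E z.1 / kinetic m (momenta z.2)) • momenta z.2)

/-- All positions have norm at most `R`; the kinetic energy `K` is positive and, if there are more than three bodies,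
at most `κ`; the momenta `P` are in the solid ellipsoid `T ≤ 1`. -/
def region {n : ℕ} (m : Fin (n + 1) → ℝ) (E κ R : ℝ) : Set ((Fin n → R3) × (Fin n → R3)) :=
  {z | (∀ i, ‖positions m z.1 i‖ ≤ R) ∧ 0 < energyK m E z.1 ∧ (energyK m E z.1 ≤ κ ∨ n = 2) ∧
    kinetic m (momenta z.2) ≤ 1}

/-- The Liouville measure (up to a constant factor) on the part of the energy surface of the reduced problem given by
`region`. In the coordinates `(Q, P')` of the reduced phase space (positions and momenta of the first `n` bodies) the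
Liouville measure on `T - U = E` is `dQ dP' / dH`. Over the configuration `Q` the momenta are `P' = √K ω`, `ω` on the
ellipsoid `T = 1`, and the measure is `K ^ ((3 n - 2) / 2)` times `dQ` times the cone measure in `ω`, which is the
image of the volume on the solid ellipsoid `T ≤ 1` under the radial projection (see `state`). -/
noncomputable def liouville {n : ℕ} (m : Fin (n + 1) → ℝ) (E κ R : ℝ) :
    Measure ((Fin n → R3) × (Fin n → R3)) :=
  (volume.restrict (region m E κ R)).withDensity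
    fun z => ENNReal.ofReal (energyK m E z.1 ^ ((3 * (n : ℝ) - 2) / 2))

theorem result (n : ℕ) (hn : 2 ≤ n) (m : Fin (n + 1) → ℝ) (hm : ∀ i, 0 < m i) (E κ : ℝ) (hE : E < 0)
    (hκ : 0 < κ) :
    ∃ c C R₀ : ℝ, 0 < c ∧ ∀ R : ℝ, R₀ ≤ R →
      ENNReal.ofReal (c * R ^ (3 * (n : ℝ) - 3)) ≤ liouville m E κ R Set.univ ∧
      ∀ (ψ : Phase (n + 1) → ℝ) (φ : ℝ → Phase (n + 1) → Phase (n + 1)), IsReparametrizedFlow m E ψ φ →
        liouville m E κ R {z | IsNonwandering (surface m E) φ (state m E z)} ≤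
          ENNReal.ofReal (C * R ^ (3 * (n : ℝ) - 9 / 2)) := by
  obtain ⟨k, rfl⟩ : ∃ k, n = k + 1 := ⟨n - 1, by omega⟩
  obtain ⟨C₀, hC₀, hprop⟩ := Pool.Agent.Q130.NX.prop (k + 1) hn m hm
  have hk : 1 ≤ k := by omega
  have hkR : (1 : ℝ) ≤ k := by exact_mod_cast hk
  have hs2 : 2 ≤ (3 * ((k + 1 : ℕ) : ℝ) - 2) / 2 := by push_cast; linarith
  obtain ⟨c, C, R₀, hc, h⟩ := Pool.Agent.Q85.ND.main hk m hm E κ hE hκ C₀ hC₀
    ((3 * ((k + 1 : ℕ) : ℝ) - 2) / 2) hs2
  refine ⟨c, C, R₀, hc, fun R hR => ?_⟩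
  obtain ⟨h1, h2⟩ := h R hR
  have hcut : ((3 * ((k + 1 : ℕ) : ℝ) - 2) / 2 = 2) ↔ k + 1 = 2 := by
    constructor
    · intro h
      have : ((k + 1 : ℕ) : ℝ) = 2 := by linarith
      exact_mod_cast this
    · intro h
      rw [h]
      norm_num
  have hst : Measurable (state m E) := by
    have h3 := (Pool.Agent.Q85.ND.st_meas m E).comp (Pool.Agent.Q85.ND.jj_meas m)
    have h4 : state m E = Pool.Agent.Q85.ND.st m E ∘ Pool.Agent.Q85.ND.jj m := by
      funext z
      exact (Pool.Agent.Q85.ND.st_jj m hm E z).symm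
    rw [h4]
    exact h3
  have key : ∀ A : Set (Phase (k + 1 + 1)), MeasurableSet A → liouville m E κ R {z | state m E z ∈ A} =
      Pool.Agent.Q85.ND.lam m E κ ((3 * ((k + 1 : ℕ) : ℝ) - 2) / 2) R A := by
    intro A hA
    have hAm : MeasurableSet {z : (Fin (k + 1) → R3) × (Fin (k + 1) → R3) | state m E z ∈ A} := hst hA
    have hset : {z : (Fin (k + 1) → R3) × (Fin (k + 1) → R3) | state m E z ∈ A} ∩ region m E κ R =
        {z : (Fin (k + 1) → R3) × (Fin (k + 1) → R3) | (∀ i, ‖Pool.Agent.Q85.ND.cfg m z.1 i‖ ≤ R) ∧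
          0 < Pool.Agent.Y516.NW.pot m (Pool.Agent.Q85.ND.cfg m z.1) + E ∧
          (Pool.Agent.Y516.NW.pot m (Pool.Agent.Q85.ND.cfg m z.1) + E ≤ κ ∨
            (3 * ((k + 1 : ℕ) : ℝ) - 2) / 2 = 2) ∧
          Pool.Agent.Y516.NW.kin m (Pool.Agent.Y516.NW.mom z.2) ≤ 1 ∧
          (Pool.Agent.Q85.ND.cfg m z.1, Real.sqrt ((Pool.Agent.Y516.NW.pot m (Pool.Agent.Q85.ND.cfg m z.1) + E) /
            Pool.Agent.Y516.NW.kin m (Pool.Agent.Y516.NW.mom z.2)) • Pool.Agent.Y516.NW.mom z.2) ∈ A} := by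
      ext z
      constructor
      · rintro ⟨hz, h3, h4, h5, h6⟩
        exact ⟨h3, h4, h5.imp id hcut.mpr, h6, hz⟩
      · rintro ⟨h3, h4, h5, h6, hz⟩
        exact ⟨hz, h3, h4, h5.imp id hcut.mp, h6⟩
    rw [liouville, withDensity_apply _ hAm, Measure.restrict_restrict hAm, hset]
    rfl
  constructor
  · have h3 := key Set.univ MeasurableSet.univ
    rw [← h3] at h1
    have h4 : (3 * ((k + 1 : ℕ) : ℝ) - 3) = 3 * ((k : ℝ) + 1) - 3 := by push_cast; ring
    rw [h4]
    exact h1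
  · intro ψ φ hφ
    have hfl : Pool.Agent.Y516.NW.IsFl m E ψ φ := ⟨hφ.smooth.continuousOn, hφ.pos, hφ.flow⟩
    have hψ : ContDiffOn ℝ 1 ψ (Pool.Agent.Y516.NW.Free (k + 1 + 1)) :=
      hφ.smooth.of_le (by exact_mod_cast le_top)
    have hcl := Pool.Agent.Q85.ND.nonW_closed (surface m E) φ
    have h3 := h2 {x | Pool.Agent.Y516.NW.NonW (surface m E) φ x} hcl
      (fun q hq hcen a b hab δ hδ hP2 hK => hprop E hE.le ψ φ hψ hfl q hq hcen a b hab δ hδ hP2 hK)
    have h4 : (3 * ((k + 1 : ℕ) : ℝ) - 9 / 2) = 3 * ((k : ℝ) + 1) - 9 / 2 := by push_cast; ring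
    rw [h4]
    exact (key _ hcl.measurableSet).le.trans h3

end Pool.Agent.Results.MP_70f7a7_an.DensityZero
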