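import Pool.Agent.Q70.NbD

/-!
# Fast encounters of hard binaries are wandering

Let the `N` bodies be grouped in singles and pairs. If the pairs are tightly bound and the uniform motion of the centres
of mass of the groups has no close encounter in the future (or none in the past), then the point is wandering.
-/

set_option autoImplicit false

open MeasureTheory

namespace Pool.Agent.Results.MP_70f7a7_an.EscapingBinaries

/-- The space `R³`. -/
abbrev R3 : Type := EuclideanSpace ℝ (Fin 3)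

/-- Phase space: pairs (positions, momenta) of `N` bodies. -/
abbrev Phase (N : ℕ) : Type := (Fin N → R3) × (Fin N → R3)

/-- Kinetic energy of the momenta `p`. -/
noncomputable def kinetic {N : ℕ} (m : Fin N → ℝ) (p : Fin N → R3) : ℝ :=
  ∑ i, ‖p i‖ ^ 2 / (2 * m i)

/-- The Newtonian potential `U(q) = ∑_{i<j} m_i m_j / |q_i - q_j|` (the energy is kinetic energy minus `U`). -/
noncomputable def potential {N : ℕ} (m : Fin N → ℝ) (q : Fin N → R3) : ℝ :=
  ∑ i, ∑ j, m i * m j / ‖q i - q j‖ / 2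

/-- The energy surface `H = E` of the reduced `N`-body problem (centre of mass `0`, total momentum `0`, no collisions). -/
def surface {N : ℕ} (m : Fin N → ℝ) (E : ℝ) : Set (Phase N) :=
  {x | (∀ i j, i ≠ j → x.1 i ≠ x.1 j) ∧ ∑ i, m i • x.1 i = 0 ∧ ∑ i, x.2 i = 0 ∧
    kinetic m x.2 - potential m x.1 = E}

/-- `φ` is the complete flow on the energy surface obtained from the `N`-body flow by a smooth positive change of time
`ψ`. -/
structure IsReparametrizedFlow {N : ℕ} (m : Fin N → ℝ) (E : ℝ) (ψ : Phase N → ℝ)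
    (φ : ℝ → Phase N → Phase N) : Prop where
  /-- `ψ` is smooth outside collisions -/
  smooth : ContDiffOn ℝ ((⊤ : ℕ∞) : WithTop ℕ∞) ψ {x | ∀ i j, i ≠ j → x.1 i ≠ x.1 j}
  /-- `ψ` is positive outside collisions -/
  pos : ∀ x : Phase N, (∀ i j, i ≠ j → x.1 i ≠ x.1 j) → 0 < ψ x
  /-- orbits exist for all times and solve the reparametrized equations of motion -/
  flow : ∀ x ∈ surface m E, φ 0 x = x ∧ ∀ t : ℝ, φ t x ∈ surface m E ∧
    HasDerivAt (fun s : ℝ => φ s x)
      (ψ (φ t x) • ((fun i => (m i)⁻¹ • (φ t x).2 i),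
        (fun i => ∑ j, (m i * m j / ‖(φ t x).1 j - (φ t x).1 i‖ ^ 3) •
          ((φ t x).1 j - (φ t x).1 i)))) t

/-- `x` is a nonwandering point of the flow `φ` on the energy surface `S`. -/
def IsNonwandering {N : ℕ} (S : Set (Phase N)) (φ : ℝ → Phase N → Phase N) (x : Phase N) : Prop :=
  ∀ V : Set (Phase N), IsOpen V → x ∈ V → ∀ T : ℝ, ∃ t : ℝ, T < t ∧ ∃ y ∈ V ∩ S, φ t y ∈ V

/-- The velocities `p_i / m_i`. -/
noncomputable def velocity {N : ℕ} (m : Fin N → ℝ) (x : Phase N) (i : Fin N) : R3 := (m i)⁻¹ • x.2 i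

/-- `σ i` is the partner of `i` (and `σ i = i` if `i` is single); `j` belongs to another group than `i`. -/
def Other {N : ℕ} (σ : Fin N → Fin N) (i j : Fin N) : Prop := j ≠ i ∧ j ≠ σ i

/-- Mass-weighted mean of `u` over the group `{i, σ i}` of `i`. -/
noncomputable def groupMean {N : ℕ} (m : Fin N → ℝ) (σ : Fin N → Fin N) (u : Fin N → R3) (i : Fin N) : R3 :=
  (m i + m (σ i))⁻¹ • (m i • u i + m (σ i) • u (σ i))

/-- Position of the centre of the group of `i` relative to the centre of the group of `j`. -/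
noncomputable def relPosition {N : ℕ} (m : Fin N → ℝ) (σ : Fin N → Fin N) (x : Phase N) (i j : Fin N) : R3 :=
  groupMean m σ x.1 i - groupMean m σ x.1 j

/-- Velocity of the centre of the group of `i` relative to the centre of the group of `j`. -/
noncomputable def relVelocity {N : ℕ} (m : Fin N → ℝ) (σ : Fin N → Fin N) (x : Phase N) (i j : Fin N) : R3 :=
  groupMean m σ (velocity m x) i - groupMean m σ (velocity m x) j

/-- Energy (per unit of reduced mass) of the relative motion of the pair `{i, σ i}`. -/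
noncomputable def pairEnergy {N : ℕ} (m : Fin N → ℝ) (σ : Fin N → Fin N) (x : Phase N) (i : Fin N) : ℝ :=
  ‖velocity m x i - velocity m x (σ i)‖ ^ 2 / 2 - (m i + m (σ i)) / ‖x.1 i - x.1 (σ i)‖

/-- After the uniform motion of the groups during the time `s` every two of them, with initial relative position `X`
and velocity `V`, have a distance `|X + s V|` at least `d` and at least `w |X| / |V|`. -/
def KeepApart {N : ℕ} (m : Fin N → ℝ) (σ : Fin N → Fin N) (w d : ℝ) (x : Phase N) (s : ℝ) : Prop :=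
  ∀ i j, Other σ i j → d ≤ ‖relPosition m σ x i j + s • relVelocity m σ x i j‖ ∧
    w * ‖relPosition m σ x i j‖ ≤
      ‖relVelocity m σ x i j‖ * ‖relPosition m σ x i j + s • relVelocity m σ x i j‖

theorem result :
    ∀ (N : ℕ) (m : Fin N → ℝ), (∀ i, 0 < m i) →
      ∀ (E : ℝ) (ψ : Phase N → ℝ) (φ : ℝ → Phase N → Phase N), IsReparametrizedFlow m E ψ φ →
      ∀ x ∈ surface m E, ∀ σ : Fin N → Fin N, (∀ i, σ (σ i) = i) → (∃ i j, Other σ i j) →
      ∀ w d : ℝ, 0 < w → 0 < d →
        (∀ i, σ i ≠ i → pairEnergy m σ x i ≤ -(8000 * ∑ k, m k) / d) →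
        (∀ i j, Other σ i j → 8000 * ∑ k, m k ≤ w ^ 2 * ‖relPosition m σ x i j‖) →
        ((∀ s : ℝ, 0 ≤ s → KeepApart m σ w d x s) ∨ (∀ s : ℝ, s ≤ 0 → KeepApart m σ w d x s)) →
        ¬ IsNonwandering (surface m E) φ x := by
  intro N m hm E ψ φ hφ x hx σ hσ hex w d hw hd hE hX hK hN
  obtain ⟨i₀, j₀, hij⟩ := hex
  have hfl : Pool.Agent.Y516.NW.IsFl m E ψ φ := ⟨hφ.smooth.continuousOn, hφ.pos, hφ.flow⟩
  have hψ : ContDiffOn ℝ 1 ψ (Pool.Agent.Y516.NW.Free N) :=
    hφ.smooth.of_le (by exact_mod_cast le_top)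
  have hO : ∀ i j, Q70.Nb.Ext σ i j → Other σ i j := fun i j h => ⟨h.1.symm, h.2⟩
  have hE' : ∀ i, i ≠ σ i → Q70.Nb.hh m σ x.1 (Pool.Agent.Y516.NW.vel m x) i
      ≤ -(8000 * ∑ k, m k) / d := fun i hi => hE i hi.symm
  have hX' : ∀ i j, Q70.Nb.Ext σ i j →
      8000 * ∑ k, m k ≤ w ^ 2 * ‖Q70.Nb.cs m σ x.1 i - Q70.Nb.cs m σ x.1 j‖ :=
    fun i j h => hX i j (hO i j h)
  rcases hK with hK | hK
  · refine Q70.Nb.wander2 m hm σ hσ E ψ hψ φ hfl x hx i₀ j₀ ⟨hij.1.symm, hij.2⟩ w d hw hd hE' hX'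
      1 (Or.inl rfl) (fun i j h s hs => ?_) hN
    rw [one_mul]
    exact hK s hs i j (hO i j h)
  · refine Q70.Nb.wander2 m hm σ hσ E ψ hψ φ hfl x hx i₀ j₀ ⟨hij.1.symm, hij.2⟩ w d hw hd hE' hX'
      (-1) (Or.inr rfl) (fun i j h s hs => ?_) hN
    exact hK (-1 * s) (by linarith) i j (hO i j h)

end Pool.Agent.Results.MP_70f7a7_an.EscapingBinaries
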