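import Pool.Agent.Q130.NX.Three
import Pool.Agent.Y438.NW.Pos

/-!
# Nonwandering points of the three-body problem

At every nonwandering point of the three-body problem the velocity of each body relative to the centre of mass of the
other two is at most `√(C / ρ)`, where `ρ` is its distance from the nearer one and `C` depends on the masses only.
-/

set_option autoImplicit false

open MeasureTheory

namespace Pool.Agent.Results.MP_70f7a7_an.ThreeBodyVelocityBound

/-- The space `R³`. -/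
abbrev R3 : Type := EuclideanSpace ℝ (Fin 3)

/-- Phase space: pairs (positions, momenta) of `N` bodies. -/
abbrev Phase (N : ℕ) : Type := (Fin N → R3) × (Fin N → R3)

/-- Kinetic energy of the momenta `p`. -/
noncomputable def kinetic {N : ℕ} (m : Fin N → ℝ) (p : Fin N → R3) : ℝ :=
  ∑ i, ‖p i‖ ^ 2 / (2 * m i)

/-- The Newtonian potential `U(q) = ∑_{i<j} m_i m_j / |q_i - q_j|` (the energy is kinetic energy minus `U`). -/
noncomputable def potential {N : ℕ} (m : Fin N → ℝ) (q : Fin N → R3) : ℝ :=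
  ∑ i, ∑ j, m i * m j / ‖q i - q j‖ / 2

/-- The energy surface `H = E` of the reduced `N`-body problem (centre of mass `0`, total momentum `0`, no collisions). -/
def surface {N : ℕ} (m : Fin N → ℝ) (E : ℝ) : Set (Phase N) :=
  {x | (∀ i j, i ≠ j → x.1 i ≠ x.1 j) ∧ ∑ i, m i • x.1 i = 0 ∧ ∑ i, x.2 i = 0 ∧
    kinetic m x.2 - potential m x.1 = E}

/-- `φ` is the complete flow on the energy surface obtained from the `N`-body flow by a smooth positive change of time
`ψ`. -/
structure IsReparametrizedFlow {N : ℕ} (m : Fin N → ℝ) (E : ℝ) (ψ : Phase N → ℝ)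
    (φ : ℝ → Phase N → Phase N) : Prop where
  /-- `ψ` is smooth outside collisions -/
  smooth : ContDiffOn ℝ ((⊤ : ℕ∞) : WithTop ℕ∞) ψ {x | ∀ i j, i ≠ j → x.1 i ≠ x.1 j}
  /-- `ψ` is positive outside collisions -/
  pos : ∀ x : Phase N, (∀ i j, i ≠ j → x.1 i ≠ x.1 j) → 0 < ψ x
  /-- orbits exist for all times and solve the reparametrized equations of motion -/
  flow : ∀ x ∈ surface m E, φ 0 x = x ∧ ∀ t : ℝ, φ t x ∈ surface m E ∧
    HasDerivAt (fun s : ℝ => φ s x)
      (ψ (φ t x) • ((fun i => (m i)⁻¹ • (φ t x).2 i),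
        (fun i => ∑ j, (m i * m j / ‖(φ t x).1 j - (φ t x).1 i‖ ^ 3) •
          ((φ t x).1 j - (φ t x).1 i)))) t

/-- `x` is a nonwandering point of the flow `φ` on the energy surface `S`. -/
def IsNonwandering {N : ℕ} (S : Set (Phase N)) (φ : ℝ → Phase N → Phase N) (x : Phase N) : Prop :=
  ∀ V : Set (Phase N), IsOpen V → x ∈ V → ∀ T : ℝ, ∃ t : ℝ, T < t ∧ ∃ y ∈ V ∩ S, φ t y ∈ V

/-- Velocity of the body `c` relative to the centre of mass of the bodies `a` and `b`. -/
noncomputable def relVelocity (m : Fin 3 → ℝ) (a b c : Fin 3) (x : Phase 3) : R3 :=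
  (m c)⁻¹ • x.2 c - (m a + m b)⁻¹ • (x.2 a + x.2 b)

theorem result :
    ∀ m : Fin 3 → ℝ, (∀ i, 0 < m i) →
      ∃ C : ℝ, 0 < C ∧ ∀ (E : ℝ) (ψ : Phase 3 → ℝ) (φ : ℝ → Phase 3 → Phase 3),
        IsReparametrizedFlow m E ψ φ →
        ∀ x ∈ surface m E, IsNonwandering (surface m E) φ x →
        ∀ a b c : Fin 3, a ≠ b → c ≠ a → c ≠ b →
          ‖relVelocity m a b c x‖ ^ 2 * min ‖x.1 c - x.1 a‖ ‖x.1 c - x.1 b‖ ≤ C := by
  · intro m hm
    obtain ⟨C, hC, h⟩ := Pool.Agent.Q130.NX.three m hm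
    refine ⟨C, hC, ?_⟩
    intro E ψ φ hφ x hx hN a b c hab hca hcb
    have hfl : Pool.Agent.Y516.NW.IsFl m E ψ φ := ⟨hφ.smooth.continuousOn, hφ.pos, hφ.flow⟩
    have hψ : ContDiffOn ℝ 1 ψ (Pool.Agent.Y516.NW.Free 3) :=
      hφ.smooth.of_le (by exact_mod_cast le_top)
    rcases le_or_gt E 0 with hE | hE
    · have h1 := h E hE ψ φ hψ hfl x hx hN a b c hab hca hcb
      have h2 : ∀ k, m k • Pool.Agent.Y516.NW.vel m x k = x.2 k := fun k => by
        simp only [Pool.Agent.Y516.NW.vel]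
        rw [smul_smul, mul_inv_cancel₀ (hm k).ne', one_smul]
      rw [h2, h2] at h1
      exact h1
    · exact absurd hN (Pool.Agent.Y438.NW.pos 3 m hm E hE ψ φ hfl x hx)

end Pool.Agent.Results.MP_70f7a7_an.ThreeBodyVelocityBound
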